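import Mathlib
import Pool.Agent.H82.NbCycles

set_option autoImplicit false

/-!
# Open neighbourhood sum parameters of all `2`-regular graphs

The bounds are proved in `Pool.Agent.H82.NbUpper` (an explicit labelling) and
`Pool.Agent.H82.NbCycles` (the lower bound).
-/

namespace Pool.Agent.Results.MP_af65a2_co.AllTwoRegular

open Classical in
/-- A bijection `f : V → {1, ..., n}`, `n = |V|`, is given by an equivalence `V ≃ Fin n`, the
value of `f` at `u` being `f u + 1`.  `nbSum G f v` is the sum `f(N(v))` over the open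
neighbourhood of `v`. -/
noncomputable def nbSum {V : Type*} [Fintype V] (G : SimpleGraph V)
    (f : V ≃ Fin (Fintype.card V)) (v : V) : ℕ :=
  ∑ u ∈ Finset.univ.filter (fun u => G.Adj v u), ((f u : ℕ) + 1)

/-- `NS(f) = max_v f(N(v))`. -/
noncomputable def maxSum {V : Type*} [Fintype V] (G : SimpleGraph V)
    (f : V ≃ Fin (Fintype.card V)) : ℕ := ⨆ v, nbSum G f v

/-- `NS⁻(f) = min_v f(N(v))`. -/
noncomputable def minSum {V : Type*} [Fintype V] (G : SimpleGraph V)
    (f : V ≃ Fin (Fintype.card V)) : ℕ := ⨅ v, nbSum G f v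

/-- `NS(G) = min_f NS(f)`. -/
noncomputable def NS {V : Type*} [Fintype V] (G : SimpleGraph V) : ℕ :=
  ⨅ f : V ≃ Fin (Fintype.card V), maxSum G f

/-- `NS⁻(G) = max_f NS⁻(f)`. -/
noncomputable def NSminus {V : Type*} [Fintype V] (G : SimpleGraph V) : ℕ :=
  ⨆ f : V ≃ Fin (Fintype.card V), minSum G f

/-- `NSˢᵖ(G) = min_f (NS(f) - NS⁻(f))`. -/
noncomputable def NSspread {V : Type*} [Fintype V] (G : SimpleGraph V) : ℕ :=
  ⨅ f : V ≃ Fin (Fintype.card V), (maxSum G f - minSum G f)

/-- The disjoint union of the cycles `C_{t 0}, ..., C_{t (k-1)}`. -/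
def cycles {k : ℕ} (t : Fin k → ℕ) : SimpleGraph (Σ i, Fin (t i)) where
  Adj x y := ∃ (i : Fin k) (a b : Fin (t i)), x = ⟨i, a⟩ ∧ y = ⟨i, b⟩ ∧
    (SimpleGraph.cycleGraph (t i)).Adj a b
  symm := by
    constructor
    rintro x y ⟨i, a, b, hx, hy, h⟩
    exact ⟨i, b, a, hy, hx, h.symm⟩
  loopless := by
    constructor
    rintro x ⟨i, a, b, hx, hy, h⟩
    rw [hx] at hy
    simp only [Sigma.mk.injEq, heq_eq_eq, true_and] at hy
    rw [hy] at h
    exact (SimpleGraph.cycleGraph (t i)).irrefl h

/-- The number of odd cycle lengths plus twice the number of cycle lengths `≡ 2 (mod 4)`. -/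
def oddCount {k : ℕ} (t : Fin k → ℕ) : ℕ :=
  (Finset.univ.filter (fun i => t i % 2 = 1)).card +
    2 * (Finset.univ.filter (fun i => t i % 4 = 2)).card

/-- The excess: `oddCount t` if this is positive; otherwise `0` if all cycles have length four and
`1` if not. -/
def excess {k : ℕ} (t : Fin k → ℕ) : ℕ :=
  if 0 < oddCount t then oddCount t else if ∀ i, t i = 4 then 0 else 1

open Pool.Agent.H82.NbCycles

lemma excess_eq {k : ℕ} (t : Fin k → ℕ) : excess t = eps t := by
  have h1 : oddCount t = ∑ i, oo (t i) := by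
    unfold oddCount oo
    rw [Finset.card_filter, Finset.card_filter, Finset.mul_sum, ← Finset.sum_add_distrib]
    apply Finset.sum_congr rfl
    intro i _
    split_ifs <;> omega
  unfold excess eps
  rw [h1]
  split_ifs <;> omega

lemma cyc_adj {m : ℕ} (hm : 3 ≤ m) (a b : Fin m) :
    (SimpleGraph.cycleGraph m).Adj a b ↔ b = pr a ∨ b = sc a := by
  rw [SimpleGraph.cycleGraph_adj']
  have ha := a.isLt
  have hb := b.isLt
  have h1 : (a - b).val = if b.val ≤ a.val then a.val - b.val else m - b.val + a.val := by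
    rw [Fin.sub_def]
    simp only
    split_ifs with h
    · have : m - b.val + a.val = (a.val - b.val) + m := by omega
      rw [this, Nat.add_mod_right, Nat.mod_eq_of_lt (by omega)]
    · exact Nat.mod_eq_of_lt (by omega)
  have h2 : (b - a).val = if a.val ≤ b.val then b.val - a.val else m - a.val + b.val := by
    rw [Fin.sub_def]
    simp only
    split_ifs with h
    · have : m - a.val + b.val = (b.val - a.val) + m := by omega
      rw [this, Nat.add_mod_right, Nat.mod_eq_of_lt (by omega)]
    · exact Nat.mod_eq_of_lt (by omega)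
  rw [h1, h2, Fin.ext_iff, Fin.ext_iff, pr_val, sc_val]
  split_ifs <;> omega

lemma nbSum_eq {V : Type*} [Fintype V] (G : SimpleGraph V) {k : ℕ}
    (t : Fin k → ℕ) (ht : ∀ i, 3 ≤ t i) (e : G ≃g cycles t) (f : V ≃ Fin (Fintype.card V))
    (i : Fin k) (x : Fin (t i)) :
    nbSum G f (e.symm ⟨i, x⟩) = ((f (e.symm ⟨i, pr x⟩) : ℕ) + 1) +
      ((f (e.symm ⟨i, sc x⟩) : ℕ) + 1) := by
  classical
  have hset : Finset.univ.filter (fun u => G.Adj (e.symm ⟨i, x⟩) u) =
      {e.symm ⟨i, pr x⟩, e.symm ⟨i, sc x⟩} := by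
    ext u
    rw [Finset.mem_filter, Finset.mem_insert, Finset.mem_singleton]
    have h1 : G.Adj (e.symm ⟨i, x⟩) u ↔ (cycles t).Adj ⟨i, x⟩ (e u) := by
      rw [← e.map_adj_iff]
      simp
    have h2 : (cycles t).Adj ⟨i, x⟩ (e u) ↔ e u = ⟨i, pr x⟩ ∨ e u = ⟨i, sc x⟩ := by
      constructor
      · rintro ⟨j, a, b, hx, hy, h⟩
        have hij : i = j := congrArg Sigma.fst hx
        subst hij
        simp only [Sigma.mk.injEq, heq_eq_eq, true_and] at hx
        subst hx
        rw [cyc_adj (ht i)] at h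
        rcases h with h | h
        · left; rw [hy, h]
        · right; rw [hy, h]
      · rintro (h | h)
        · exact ⟨i, x, pr x, rfl, h, (cyc_adj (ht i) _ _).2 (Or.inl rfl)⟩
        · exact ⟨i, x, sc x, rfl, h, (cyc_adj (ht i) _ _).2 (Or.inr rfl)⟩
    rw [h1, h2]
    constructor
    · rintro ⟨-, h | h⟩
      · left; rw [← h]; simp
      · right; rw [← h]; simp
    · rintro (h | h)
      · exact ⟨Finset.mem_univ _, Or.inl (by rw [h]; simp)⟩
      · exact ⟨Finset.mem_univ _, Or.inr (by rw [h]; simp)⟩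
  have hne : e.symm ⟨i, pr x⟩ ≠ e.symm ⟨i, sc x⟩ := by
    intro h
    have := e.symm.injective h
    simp only [Sigma.mk.injEq, heq_eq_eq, true_and] at this
    exact pr_ne_sc (ht i) x this
  unfold nbSum
  have : ∀ (d : DecidablePred (fun u => G.Adj (e.symm ⟨i, x⟩) u)),
      @Finset.filter V (fun u => G.Adj (e.symm ⟨i, x⟩) u) d Finset.univ =
      Finset.univ.filter (fun u => G.Adj (e.symm ⟨i, x⟩) u) := by
    intro d
    congr
  rw [this, hset, Finset.sum_pair hne]

/-- **Open neighbourhood sums of `2`-regular graphs.**  Let `G` be a disjoint union of cycles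
`C_{t 0}, ..., C_{t (k-1)}` with `n = ∑ t i` vertices.  Then `NS(G) = n + 1 + excess t`,
`NS⁻(G) = n + 1 - excess t` and `NSˢᵖ(G) = 2 * excess t`. -/
theorem result {V : Type*} [Fintype V] (G : SimpleGraph V) {k : ℕ} (hk : 0 < k)
    (t : Fin k → ℕ) (ht : ∀ i, 3 ≤ t i) (e : G ≃g cycles t) :
    NS G = (∑ i, t i) + 1 + excess t ∧
    NSminus G + excess t = (∑ i, t i) + 1 ∧
    NSspread G = 2 * excess t := by
  classical
  have hcard : Fintype.card V = nn t := by
    rw [Fintype.card_congr e.toEquiv, card_sigma_fin]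
  have hn : ∑ i, t i = nn t := rfl
  rw [excess_eq, hn]
  have : Nonempty (Σ i, Fin (t i)) :=
    ⟨⟨⟨0, hk⟩, ⟨0, by have := ht ⟨0, hk⟩; omega⟩⟩⟩
  have : Nonempty V := ⟨e.symm (Classical.arbitrary _)⟩
  have : Nonempty (V ≃ Fin (Fintype.card V)) := ⟨Fintype.equivFin V⟩
  have hbddV : ∀ g : V → ℕ, BddAbove (Set.range g) := fun g => (Set.finite_range g).bddAbove
  have hbddf : ∀ g : (V ≃ Fin (Fintype.card V)) → ℕ, BddAbove (Set.range g) :=
    fun g => (Set.finite_range g).bddAbove
  -- lower bound for the maximum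
  have hlow : ∀ f : V ≃ Fin (Fintype.card V), ∃ v, nn t + 1 + eps t ≤ nbSum G f v := by
    intro f
    obtain ⟨i, x, h⟩ := lower t ht hk (fun v => (f (e.symm v) : ℕ) + 1)
      (by
        intro a b hab
        simp only [Nat.add_right_cancel_iff] at hab
        exact e.symm.injective (f.injective (Fin.ext hab)))
      (by
        intro v
        have := (f (e.symm v)).isLt
        constructor
        · omega
        · omega)
    refine ⟨e.symm ⟨i, x⟩, ?_⟩
    rw [nbSum_eq G t ht e f i x]
    exact h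
  -- the complementary labelling
  have hrev : ∀ f : V ≃ Fin (Fintype.card V), ∃ v, nbSum G f v + eps t ≤ nn t + 1 := by
    intro f
    obtain ⟨v, hv⟩ := hlow (f.trans Fin.revPerm)
    obtain ⟨⟨i, x⟩, rfl⟩ := e.symm.surjective v
    refine ⟨e.symm ⟨i, x⟩, ?_⟩
    rw [nbSum_eq G t ht e] at hv ⊢
    simp only [Equiv.trans_apply, Fin.revPerm_apply, Fin.val_rev] at hv
    have h1 := (f (e.symm ⟨i, pr x⟩)).isLt
    have h2 := (f (e.symm ⟨i, sc x⟩)).isLt
    omega
  -- the good labelling
  obtain ⟨f0, hf0⟩ : ∃ f0 : V ≃ Fin (Fintype.card V), ∀ v,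
      nbSum G f0 v ≤ nn t + 1 + eps t ∧ nn t + 1 ≤ nbSum G f0 v + eps t := by
    obtain ⟨F, hinj, hr, hF⟩ := exists_lab t ht
    let g : V → Fin (Fintype.card V) := fun v => ⟨(F (e v)).toNat, by
      have := hr (e v)
      rw [hcard]
      omega⟩
    have hg : Function.Injective g := by
      intro a b hab
      have h1 := congrArg Fin.val hab
      simp only [g] at h1
      have h2 := hr (e a)
      have h3 := hr (e b)
      have h4 : F (e a) = F (e b) := by omega
      exact e.injective (hinj h4)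
    have hgb : Function.Bijective g :=
      (Fintype.bijective_iff_injective_and_card g).2 ⟨hg, by simp⟩
    refine ⟨Equiv.ofBijective g hgb, ?_⟩
    intro v
    obtain ⟨⟨i, x⟩, rfl⟩ := e.symm.surjective v
    rw [nbSum_eq G t ht e]
    have h5 : ∀ w, ((Equiv.ofBijective g hgb (e.symm w) : Fin _) : ℕ) = (F w).toNat := by
      intro w
      simp [g]
    rw [h5, h5]
    have h6 := hF i x
    have h7 := hr ⟨i, pr x⟩
    have h8 := hr ⟨i, sc x⟩
    constructor
    · omega
    · omega
  -- maxima and minima of one labelling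
  have hmax : ∀ f, nn t + 1 + eps t ≤ maxSum G f := by
    intro f
    obtain ⟨v, hv⟩ := hlow f
    exact le_trans hv (le_ciSup (hbddV (nbSum G f)) v)
  have hmin : ∀ f, minSum G f + eps t ≤ nn t + 1 := by
    intro f
    obtain ⟨v, hv⟩ := hrev f
    have : minSum G f ≤ nbSum G f v := ciInf_le (OrderBot.bddBelow _) v
    omega
  have hmax0 : maxSum G f0 ≤ nn t + 1 + eps t := ciSup_le (fun v => (hf0 v).1)
  have hmin0 : nn t + 1 ≤ minSum G f0 + eps t := by
    have : nn t + 1 - eps t ≤ minSum G f0 := by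
      apply le_ciInf
      intro v
      have := (hf0 v).2
      omega
    omega
  refine ⟨?_, ?_, ?_⟩
  · apply le_antisymm
    · exact le_trans (ciInf_le (OrderBot.bddBelow _) f0) hmax0
    · exact le_ciInf hmax
  · apply le_antisymm
    · have h1 : NSminus G ≤ nn t + 1 - eps t := by
        apply ciSup_le
        intro f
        have := hmin f
        omega
      have h2 := hmin f0
      omega
    · have h1 : minSum G f0 ≤ NSminus G := le_ciSup (hbddf (minSum G)) f0
      omega
  · apply le_antisymm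
    · have h1 : NSspread G ≤ maxSum G f0 - minSum G f0 := ciInf_le (OrderBot.bddBelow _) f0
      omega
    · apply le_ciInf
      intro f
      have h1 := hmax f
      have h2 := hmin f
      omega

end Pool.Agent.Results.MP_af65a2_co.AllTwoRegular
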